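import Pool.Agent.Lib.MP_c7af3c_ag.T2.H51.M3
import Pool.Agent.Lib.MP_c7af3c_ag.T2.H38.OntoCore
import Pool.Agent.Lib.MP_c7af3c_ag.T2.IfaceB

/-!
# MP_c7af3c_ag, project T2: row ONTO from row M3
-/

set_option autoImplicit false
set_option linter.unusedSectionVars false

namespace Pool.Agent.T2.H51

open MvPolynomial Pool.Agent.Gen Pool.Agent.Edge Pool.Agent.T2
open Pool.Agent.Edge.H65 (ssub)

variable {Ω : Type} [Field Ω]

/-- an enumeration of the coordinates -/
def eps : Fin 7 ⊕ Fin 8 ≃ Fin 5 × Fin 3 :=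
  finSumFinEquiv.trans ((finCongr (show 7 + 8 = 5 * 3 by norm_num)).trans
    (finProdFinEquiv (m := 5) (n := 3)).symm)

/-- the order of the borders -/
def sig : Fin 7 ≃ Fin 7 where
  toFun := ![0, 1, 4, 2, 5, 3, 6]
  invFun := ![0, 1, 3, 5, 2, 4, 6]
  left_inv := by decide
  right_inv := by decide

/-- the change of the indices -/
def cur : H38.W15 Ω →ₗ[Ω] (Fin 5 × Fin 3 → Ω) where
  toFun w r := w r.2 r.1
  map_add' _ _ := rfl
  map_smul' _ _ := rfl

theorem cur_apply (w : H38.W15 Ω) (r : Fin 5 × Fin 3) : cur w r = w r.2 r.1 := rfl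

/-- the alternating form of the cubic block -/
noncomputable def ff : H38.W15 Ω [⋀^(Fin 7 ⊕ Fin 8)]→ₗ[Ω] Ω :=
  ((dtA (L := Ω) eps).compLinearMap cur).domDomCongr (Equiv.sumCongr sig (Equiv.refl _))

theorem ff_apply (w : Fin 7 ⊕ Fin 8 → H38.W15 Ω) :
    ff w = dt eps fun i => cur (w (Equiv.sumCongr sig (Equiv.refl _) i)) := by
  unfold ff
  rw [AlternatingMap.domDomCongr_apply, AlternatingMap.compLinearMap_apply, dtA_apply]
  simp only [Function.comp_apply]

theorem ff_ne : (ff : H38.W15 Ω [⋀^(Fin 7 ⊕ Fin 8)]→ₗ[Ω] Ω) ≠ 0 := by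
  intro h0
  have h1 : ff (fun i => fun b p =>
      (Pi.single (eps ((Equiv.sumCongr sig (Equiv.refl _)).symm i)) (1 : Ω) :
        Fin 5 × Fin 3 → Ω) (p, b)) = 1 := by
    rw [ff_apply]
    have h2 : (fun i => cur (fun b p => (Pi.single (eps ((Equiv.sumCongr sig
        (Equiv.refl _)).symm (Equiv.sumCongr sig (Equiv.refl _) i))) (1 : Ω) :
        Fin 5 × Fin 3 → Ω) (p, b))) = fun i : Fin 7 ⊕ Fin 8 =>
        (Pi.single (eps i) (1 : Ω) : Fin 5 × Fin 3 → Ω) := by
      funext i r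
      rw [cur_apply, Equiv.symm_apply_apply]
    rw [h2]
    unfold dt
    have h3 : (Matrix.of fun i j => (fun i : Fin 7 ⊕ Fin 8 =>
        (Pi.single (eps i) (1 : Ω) : Fin 5 × Fin 3 → Ω)) i (eps j)) = 1 := by
      ext i j
      rw [Matrix.of_apply, Matrix.one_apply]
      dsimp only
      rw [Pi.single_apply]
      by_cases h : i = j
      · subst h
        rw [if_pos rfl, if_pos rfl]
      · rw [if_neg (fun h' => h (eps.injective h').symm), if_neg h]
    rw [h3, Matrix.det_one]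
  rw [h0] at h1
  exact zero_ne_one h1

variable {D : D6 Ω} {x : Fin 5 → Ω} {t : Fin 3 → Fin 5} {P : Fin 3 → Fin 5 → Ω}

/-- the frame with the point as first vector -/
def Qf (x : Fin 5 → Ω) (P : Fin 3 → Fin 5 → Ω) : Fin 3 → Fin 5 → Ω := ![x, P 1, P 2]

/-- the change of frame -/
def gf (x : Fin 5 → Ω) (t : Fin 3 → Fin 5) : Matrix (Fin 3) (Fin 3) Ω :=
  !![1, 0, 0; - x (t 1), 1, 0; - x (t 2), 0, 1]

theorem gf_det (x : Fin 5 → Ω) (t : Fin 3 → Fin 5) : (gf x t).det = 1 := by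
  rw [gf, Matrix.det_fin_three]
  simp

theorem P_gf (hp : Pl D x t P) (b : Fin 3) (p : Fin 5) :
    P b p = ∑ c, gf x t c b * Qf x P c p := by
  rw [Fin.sum_univ_three]
  fin_cases b
  · show P 0 p = 1 * x p + - x (t 1) * P 1 p + - x (t 2) * P 2 p
    rw [hp.xP p, Fin.sum_univ_three, hp.x0]
    ring
  · show P 1 p = 0 * x p + 1 * P 1 p + 0 * P 2 p
    ring
  · show P 2 p = 0 * x p + 0 * P 1 p + 1 * P 2 p
    ring

theorem pln_of (hp : Pl D x t P) : Pln D (Qf x P) t where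
  hF := hp.h0
  h0 := hp.x0
  h1 := fun j => by
    show P 1 (t j) = _
    rw [hp.Pt]
    by_cases h : j = 1
    · rw [if_pos h, if_pos h.symm]
    · rw [if_neg h, if_neg (Ne.symm h)]
  h2 := fun j => by
    show P 2 (t j) = _
    rw [hp.Pt]
    by_cases h : j = 2
    · rw [if_pos h, if_pos h.symm]
    · rw [if_neg h, if_neg (Ne.symm h)]
  span := fun G hG h0 => by
    have h1 : ssub P G = 0 := by
      have h2 := resP_sg (P_gf hp) G
      rw [h0, map_zero] at h2
      exact h2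
    have h3 := hp.int G hG h1
    have h4 : VV D (Qf x P) G = 0 := by
      funext r
      obtain ⟨p, b⟩ := r
      show D.V (Qf x P b) 0 G p = 0
      fin_cases b
      · show D.V x 0 G p = 0
        rw [h3.1]; rfl
      · show D.V (P 1) 0 G p = 0
        rw [h3.2]; rfl
      · show D.V (P 2) 0 G p = 0
        rw [h3.2]; rfl
    rw [h4]
    exact Submodule.zero_mem _

theorem cur_uu (x : Fin 5 → Ω) (P : Fin 3 → Fin 5 → Ω) (j : Fin 7) :
    cur (H38.uu x P (sig j)) = pp (Qf x P) j := by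
  funext r
  obtain ⟨p, b⟩ := r
  rw [cur_apply]
  fin_cases j <;> fin_cases b <;> rfl

theorem ff_eq (D : D6 Ω) (x : Fin 5 → Ω) (t : Fin 3 → Fin 5) (P : Fin 3 → Fin 5 → Ω)
    (B : MvPolynomial (Fin 3) Ω) (a : Fin 8 → (Fin 3 →₀ ℕ)) :
    ff (Sum.elim (H38.uu x P) fun j => H38.col D x t P B (a j)) =
      dl D (Qf x P) t eps (rename t B) fun k => monomial (a k) 1 := by
  rw [ff_apply]
  unfold dl
  congr 1
  funext i
  rcases i with j | k
  · exact cur_uu x P j
  · show cur (H38.VV D x P (rename t (B * monomial (a k) 1))) =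
      VV D (Qf x P) (rename t B * rename t (monomial (a k) 1))
    rw [map_mul]
    funext r
    obtain ⟨p, b⟩ := r
    rw [cur_apply, H38.VV_apply]
    rfl

theorem CB_rename {Γ : Type} [LinearOrderedCommGroupWithZero Γ] (v : Valuation Ω Γ)
    (ht : Function.Injective t) (B : MvPolynomial (Fin 3) ℤ) :
    T2.G.CB v (rename t (MvPolynomial.map (Int.castRingHom Ω) B)) 1 := by
  intro I
  by_cases h : coeff I (rename t (MvPolynomial.map (Int.castRingHom Ω) B)) = 0
  · rw [h, map_zero]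
    exact zero_le
  · obtain ⟨J, hJ, -⟩ := coeff_rename_ne_zero _ _ _ h
    rw [← hJ, coeff_rename_mapDomain t ht, coeff_map, eq_intCast]
    have h1 : ∀ n : ℕ, v (n : Ω) ≤ 1 := T2.G.v_natCast_le v
    rcases Int.eq_nat_or_neg (coeff J B) with ⟨n, hn | hn⟩
    · rw [hn, Int.cast_natCast]
      exact h1 n
    · rw [hn, Int.cast_neg, Int.cast_natCast, Valuation.map_neg]
      exact h1 n

theorem det_Qf (hp : Pl D x t P) (r : Fin 3 → Fin 5) : (Matrix.of fun i j => P i (r j)).det =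
    (Matrix.of fun r' s => Qf x P s (r r')).det := by
  rw [← Matrix.det_transpose]
  have h3 : (Matrix.of fun i j => P i (r j)).transpose =
      (Matrix.of fun r' s => Qf x P s (r r')) * gf x t := by
    ext i j
    rw [Matrix.mul_apply]
    simp only [Matrix.of_apply, Matrix.transpose_apply]
    rw [P_gf hp]
    exact Finset.sum_congr rfl fun c _ => mul_comm _ _
  rw [h3, Matrix.det_mul, gf_det, mul_one]

theorem eval_Qf (x : Fin 5 → Ω) (t : Fin 3 → Fin 5) (P : Fin 3 → Fin 5 → Ω)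
    (B : MvPolynomial (Fin 3) Ω) : eval (Qf x P 0) (rename t B) = eval (fun i => x (t i)) B := by
  rw [eval_rename]
  rfl

theorem m3Aux {Γ : Type} [LinearOrderedCommGroupWithZero Γ] (hp : Pl D x t P)
    (v : Valuation Ω Γ) {M : Γ}
    (hdel : ∀ m I, I.degree = 6 → ∀ f, v f ≤ 1 → v (D.del m I f) ≤ M)
    (B : MvPolynomial (Fin 3) ℤ) (hB : B.IsHomogeneous 3) (a : Fin 8 → (Fin 3 →₀ ℕ))
    (ha : ∀ k, (a k).degree = 3) (r : Fin 3 → Fin 5) :
    v (ff (Sum.elim (H38.uu x P) fun j => H38.col D x t P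
      (MvPolynomial.map (Int.castRingHom Ω) B) (a j))) *
      v (Matrix.of fun i j => P i (r j)).det ≤
    v (eval (fun i => x (t i)) (MvPolynomial.map (Int.castRingHom Ω) B)) * M ^ 8 := by
  have h1 := m3 (pln_of hp) v hdel
    (B := rename t (MvPolynomial.map (Int.castRingHom Ω) B))
    ((hB.map _).rename_isHomogeneous) (CB_rename v hp.inj B) eps a ha r
  rw [ff_eq, det_Qf hp]
  rw [eval_Qf] at h1
  exact h1

theorem ex_deg (a : Fin 8 → H38.J3) : ∃ b : Fin 8 → (Fin 3 →₀ ℕ),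
    (∀ k, (a k : Fin 3 →₀ ℕ) = b k) ∧ ∀ k, (b k).degree = 3 :=
  ⟨fun k => (a k : Fin 3 →₀ ℕ), fun _ => rfl, fun k => H38.J3_degree (a k)⟩

theorem m3At {k : Subfield Ω} {Γ : Type} [LinearOrderedCommGroupWithZero Γ] {S : Sizes Ω k Γ}
    (h : Sit S D x (t 0)) (hp : Pl D x t P) (B : MvPolynomial (Fin 3) ℤ)
    (hB : B.IsHomogeneous 3) (p : S.V) :
    H38.M3At S D x t P (MvPolynomial.map (Int.castRingHom Ω) B) ff p := by
  intro a r
  obtain ⟨b, hb, hb3⟩ := ex_deg a
  simp only [hb]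
  exact m3Aux hp (S.v p) (fun m I hI f hf => h.hdel p m I hI f hf) B hB b hb3 r

/-- row ONTO -/
theorem onto : OntoStatement := by
  intro Ω _ _ k Γ _ S D x t P h hp hR B hB heq
  exact H38.onto_core h hp hR.dim (hB.map _) heq ff ff_ne fun p => m3At h hp B hB p

end Pool.Agent.T2.H51
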