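import Pool.Agent.Lib.MP_c7af3c_ag.T2.H54.SizeG

/-!
# MP_c7af3c_ag, project T2, row M3: determinants of rows
-/

set_option autoImplicit false
set_option linter.unusedSectionVars false

namespace Pool.Agent.T2.H51

open Pool.Agent.Gen Pool.Agent.T2.G

section lin

variable {L : Type} [Field L] {Γ : Type} [LinearOrderedCommGroupWithZero Γ] {α β R : Type} [Fintype α] [DecidableEq α] [Fintype β]
  [DecidableEq β] [Fintype R] [DecidableEq R]

/-- the determinant of the rows `w` -/
noncomputable def dt (ε : α ⊕ β ≃ R) (w : α ⊕ β → R → L) : L :=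
  (Matrix.of fun i j => w i (ε j)).det

theorem dt_blk (ε : α ⊕ β ≃ R) (A A' : α → R → L) (u u' : β → R → L) (N : Matrix α α L)
    (T : Matrix β α L) (hA : ∀ k, A k = ∑ j, N k j • A' j)
    (hu : ∀ k, u k = ∑ j, T k j • A' j + u' k) :
    dt ε (Sum.elim A u) = N.det * dt ε (Sum.elim A' u') := by
  have h1 : (Matrix.of fun i j => Sum.elim A u i (ε j)) =
      Matrix.fromBlocks N 0 T 1 * (Matrix.of fun i j => Sum.elim A' u' i (ε j)) := by
    ext i j
    rw [Matrix.mul_apply, Fintype.sum_sum_type]
    rcases i with k | k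
    · simp [hA, Finset.sum_apply]
    · simp [hu, Matrix.one_apply, Finset.sum_apply]
  unfold dt
  rw [h1, Matrix.det_mul, Matrix.det_fromBlocks_zero₁₂, Matrix.det_one, mul_one]

theorem dt_right (ε : α ⊕ β ≃ R) (w w' : α ⊕ β → R → L) (Q : Matrix R R L)
    (h : ∀ i r, w' i r = ∑ r', w i r' * Q r' r) : dt ε w' = dt ε w * Q.det := by
  have h1 : (Matrix.of fun i j => w' i (ε j)) =
      (Matrix.of fun i j => w i (ε j)) * Q.submatrix ε ε := by
    ext i j
    rw [Matrix.mul_apply]
    simp only [Matrix.of_apply, Matrix.submatrix_apply]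
    rw [h, ← ε.sum_comp]
  unfold dt
  rw [h1, Matrix.det_mul, Matrix.det_submatrix_equiv_self]

theorem dt_cramer (ε : α ⊕ β ≃ R) (w : α ⊕ β → R → L) (e : (R → L) →ₗ[L] L) (u : R → L) :
    e u * dt ε w = ∑ i, e (w i) * dt ε (Function.update w i u) := by
  set A : Matrix (α ⊕ β) (α ⊕ β) L := Matrix.of fun i j => w i (ε j) with hA
  have h1 := Matrix.mulVec_cramer A.transpose (fun j => u (ε j))
  have h2 : ∀ i, Matrix.cramer A.transpose (fun j => u (ε j)) i =
      dt ε (Function.update w i u) := by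
    intro i
    rw [Matrix.cramer_transpose_apply]
    unfold dt
    congr 1
    ext a b
    rw [Matrix.updateRow_apply, Matrix.of_apply, Function.update_apply]
    by_cases h : a = i
    · rw [if_pos h, if_pos h]
    · rw [if_neg h, if_neg h, hA, Matrix.of_apply]
  have h3 : dt ε w • u = ∑ i, dt ε (Function.update w i u) • w i := by
    funext r
    have h4 := congrFun h1 (ε.symm r)
    rw [Matrix.det_transpose, Matrix.mulVec, dotProduct] at h4
    simp only [Pi.smul_apply, smul_eq_mul, Equiv.apply_symm_apply, Matrix.transpose_apply, hA,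
      Matrix.of_apply] at h4
    rw [Finset.sum_apply, Pi.smul_apply, smul_eq_mul]
    simp only [Pi.smul_apply, smul_eq_mul]
    unfold dt
    rw [← h4]
    refine Finset.sum_congr rfl fun i _ => ?_
    rw [← hA, h2]
    unfold dt
    ring
  have h5 := congrArg e h3
  rw [map_smul, map_sum, smul_eq_mul] at h5
  rw [mul_comm, h5]
  refine Finset.sum_congr rfl fun i _ => ?_
  rw [map_smul, smul_eq_mul, mul_comm]

theorem v_dt_le (ε : α ⊕ β ≃ R) (w : α ⊕ β → R → L) (v : Valuation L Γ)
    (σ : α ⊕ β → Γ) (h : ∀ i r, v (w i r) ≤ σ i) : v (dt ε w) ≤ ∏ i, σ i := by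
  unfold dt
  rw [← Matrix.det_transpose]
  exact v_det_le v _ σ fun a k => by
    rw [Matrix.transpose_apply, Matrix.of_apply]
    exact h _ _

end lin

end Pool.Agent.T2.H51
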