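import Pool.Agent.Lib.MP_c7af3c_ag.T2.H51.Bor

/-!
# MP_c7af3c_ag, project T2, row M3: the local estimate in an adapted integral frame
-/

set_option autoImplicit false
set_option linter.unusedSectionVars false

namespace Pool.Agent.T2.H51

open MvPolynomial Pool.Agent.Gen Pool.Agent.T2.G Pool.Agent.Edge

variable {L : Type} [Field L] {Γ : Type} [LinearOrderedCommGroupWithZero Γ]

/-- forms in the dual coordinates -/
noncomputable def loc (ξ : Fin 3 → Fin 5 → L) :
    MvPolynomial (Fin 3) L →ₐ[L] MvPolynomial (Fin 5) L :=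
  aeval fun b => ∑ p, C (ξ b p) * X p

theorem hom_loc (ξ : Fin 3 → Fin 5 → L) {c : MvPolynomial (Fin 3) L} {k : ℕ}
    (hc : c.IsHomogeneous k) : (loc ξ c).IsHomogeneous k := by
  have h := hc.aeval (fun b => (∑ p, C (ξ b p) * X p : MvPolynomial (Fin 5) L)) (n := 1)
    (fun b => IsHomogeneous.sum _ _ _ fun p _ => by
      simpa using (isHomogeneous_C _ (ξ b p)).mul (isHomogeneous_X L p))
  rw [one_mul] at h
  exact h

theorem loc_monomial (ξ : Fin 3 → Fin 5 → L) (a : Fin 3 →₀ ℕ) :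
    loc ξ (monomial a 1) = ∏ i, (∑ p, C (ξ i p) * X p) ^ a i := by
  unfold loc
  rw [aeval_monomial, map_one, one_mul, Finsupp.prod_fintype]
  intro i
  rw [pow_zero]

theorem CB_loc (v : Valuation L Γ) {ξ : Fin 3 → Fin 5 → L} (hξ : ∀ a b, v (ξ a b) ≤ 1)
    (a : Fin 3 →₀ ℕ) : CB v (loc ξ (monomial a 1)) 1 := by
  rw [loc_monomial]
  exact CB.prod1 v _ _ fun i _ => CB.pow1 v (CB.sum1 v _ _ fun b _ =>
    (CB_CX v (ξ i b) b).mono v (hξ i b)) _

theorem resP_X (P : Fin 3 → Fin 5 → L) (p : Fin 5) :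
    resP P (X p) = ∑ i, C (P i p) * X i := by
  unfold resP
  rw [aeval_X]

theorem resP_loc {P' ξ : Fin 3 → Fin 5 → L}
    (hd : ∀ b c, ∑ p, ξ b p * P' c p = if b = c then 1 else 0) (c : MvPolynomial (Fin 3) L) :
    resP P' (loc ξ c) = c := by
  have h1 : (resP P').comp (loc ξ) = AlgHom.id L _ := by
    apply algHom_ext
    intro b
    rw [AlgHom.comp_apply, AlgHom.id_apply]
    unfold loc
    rw [aeval_X, map_sum]
    have h2 : ∀ p, resP P' (C (ξ b p) * X p) = ∑ i, C (ξ b p * P' i p) * X i := by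
      intro p
      have h3 : resP P' (C (ξ b p)) = C (ξ b p) := (resP P').commutes _
      rw [map_mul, resP_X, h3, Finset.mul_sum]
      refine Finset.sum_congr rfl fun i _ => ?_
      rw [C_mul, mul_assoc]
    simp only [h2]
    rw [Finset.sum_comm]
    have h4 : ∀ i, ∑ p, (C (ξ b p * P' i p) * X i : MvPolynomial (Fin 3) L) =
        C (if b = i then 1 else 0) * X i := by
      intro i
      rw [← hd b i, map_sum, Finset.sum_mul]
    simp only [h4]
    rw [Finset.sum_eq_single b]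
    · rw [if_pos rfl, C_1, one_mul]
    · intro i _ hi
      rw [if_neg (Ne.symm hi), C_0, zero_mul]
    · intro h; exact absurd (Finset.mem_univ _) h
  have h5 := DFunLike.congr_fun h1 c
  rwa [AlgHom.comp_apply, AlgHom.id_apply] at h5

theorem resP_sg {P P' : Fin 3 → Fin 5 → L} {g : Matrix (Fin 3) (Fin 3) L}
    (he : ∀ b p, P b p = ∑ c, g c b * P' c p) (f : MvPolynomial (Fin 5) L) :
    resP P f = sg g (resP P' f) := by
  have h1 : resP P = (sg g).comp (resP P') := by
    apply algHom_ext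
    intro p
    rw [AlgHom.comp_apply, resP_X, resP_X, map_sum]
    have h2 : ∀ c, sg g (C (P' c p) * X c) = ∑ b, C (g c b * P' c p) * X b := by
      intro c
      have h3 : sg g (C (P' c p)) = C (P' c p) := (sg g).commutes _
      rw [map_mul, sg_X, h3, Finset.mul_sum]
      refine Finset.sum_congr rfl fun i _ => ?_
      rw [C_mul]
      ring
    simp only [h2]
    rw [Finset.sum_comm]
    refine Finset.sum_congr rfl fun b _ => ?_
    rw [he, map_sum, Finset.sum_mul]
  rw [h1, AlgHom.comp_apply]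

theorem resP_rename (P' : Fin 3 → Fin 5 → L) (t : Fin 3 → Fin 5) (c : MvPolynomial (Fin 3) L) :
    resP P' (rename t c) = sg (Matrix.of fun a c => P' c (t a)) c := by
  have h1 : (resP P').comp (rename t) = sg (Matrix.of fun a c => P' c (t a)) := by
    apply algHom_ext
    intro a
    rw [AlgHom.comp_apply, rename_X, resP_X, sg_X]
    rfl
  have h2 := DFunLike.congr_fun h1 c
  rwa [AlgHom.comp_apply] at h2

/-- the functional `u -> sum_p F_p(x) u(p,0)` -/
noncomputable def ee (D : DSys L 4 1 (fun _ => 6)) (x : Fin 5 → L) :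
    (Fin 5 × Fin 3 → L) →ₗ[L] L :=
  ∑ p, eval x (pderiv p (D.F 0)) • LinearMap.proj (p, 0)

theorem ee_apply (D : DSys L 4 1 (fun _ => 6)) (x : Fin 5 → L) (u : Fin 5 × Fin 3 → L) :
    ee D x u = ∑ p, eval x (pderiv p (D.F 0)) * u (p, 0) := by
  unfold ee
  rw [LinearMap.sum_apply]
  rfl

theorem euler (D : DSys L 4 1 (fun _ => 6)) {x : Fin 5 → L} (hF : eval x (D.F 0) = 0) :
    ∑ p, eval x (pderiv p (D.F 0)) * x p = 0 := by
  have h1 := (D.hom 0).sum_X_mul_pderiv
  have h2 := congrArg (eval x) h1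
  rw [map_sum, map_nsmul, hF, smul_zero] at h2
  rw [← h2]
  refine Finset.sum_congr rfl fun p _ => ?_
  rw [map_mul, eval_X, mul_comm]

/-- `e` vanishes on the borders -/
theorem ee_pp (D : DSys L 4 1 (fun _ => 6)) {x : Fin 5 → L} (hF : eval x (D.F 0) = 0)
    {P : Fin 3 → Fin 5 → L} {r : L} (h0 : ∀ p, P 0 p = r * x p) (j : Fin 7) :
    ee D x (pp P j) = 0 := by
  have hb : ∀ j : Fin 7, (bor j).2 = 0 → (bor j).1 = 0 := by decide
  rw [ee_apply]
  have h1 : ∀ p, pp P j (p, 0) = if 0 = (bor j).2 then P (bor j).1 p else 0 := fun p => rfl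
  simp only [h1]
  by_cases h : 0 = (bor j).2
  · simp only [if_pos h, hb j h.symm, h0]
    have h2 : ∀ p, eval x (pderiv p (D.F 0)) * (r * x p) =
        r * (eval x (pderiv p (D.F 0)) * x p) := fun p => by ring
    simp only [h2]
    rw [← Finset.mul_sum, euler D hF, mul_zero]
  · simp only [if_neg h, mul_zero, Finset.sum_const_zero]

/-- `e` on the variations -/
theorem ee_VV (D : DSys L 4 1 (fun _ => 6)) {P : Fin 3 → Fin 5 → L}
    (hF : eval (P 0) (D.F 0) = 0) {G : MvPolynomial (Fin 5) L} (hG : G.IsHomogeneous 6) :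
    ee D (P 0) (VV D P G) = - eval (P 0) G := by
  have h1 := Pool.Agent.Gen.H12.reln L 4 1 (fun _ => 6) D (P 0) (fun m => by
    rw [Subsingleton.elim m 0]
    exact hF) 0 0 G hG
  rw [if_pos rfl] at h1
  rw [ee_apply, ← h1]
  rfl

theorem ee_Rg (D : DSys L 4 1 (fun _ => 6)) (x : Fin 5 → L) {g : Matrix (Fin 3) (Fin 3) L}
    (ht : ∀ c b, b < c → g c b = 0) (u : Fin 5 × Fin 3 → L) :
    ee D x (Rg g u) = g 0 0 * ee D x u := by
  rw [ee_apply, ee_apply, Finset.mul_sum]
  refine Finset.sum_congr rfl fun p _ => ?_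
  have h1 : Rg g u (p, 0) = g 0 0 * u (p, 0) := by
    unfold Rg
    rw [Fin.sum_univ_three]
    show g 0 0 * u (p, 0) + g 1 0 * u (p, 1) + g 2 0 * u (p, 2) = _
    rw [ht 1 0 (by decide), ht 2 0 (by decide)]
    ring
  rw [h1]
  ring

section frame

variable {v : Valuation L Γ} {P P' ξ : Fin 3 → Fin 5 → L} {g : Matrix (Fin 3) (Fin 3) L}

theorem Fr.P0 (hf : Fr v P P' ξ g) (p : Fin 5) : P 0 p = g 0 0 * P' 0 p := by
  rw [hf.eq, Fin.sum_univ_three, hf.tri 1 0 (by decide), hf.tri 2 0 (by decide)]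
  ring

theorem Fr.ee_VV' (hf : Fr v P P' ξ g) (D : DSys L 4 1 (fun _ => 6))
    (hF : eval (P 0) (D.F 0) = 0) {G : MvPolynomial (Fin 5) L} (hG : G.IsHomogeneous 6) :
    g 0 0 * ee D (P 0) (VV D P' G) = - eval (P 0) G := by
  rw [← ee_VV D hF hG, VV_frame D hf.eq hf.tri G, map_add, map_sum, ee_Rg D _ hf.tri]
  rw [Finset.sum_eq_zero, zero_add]
  intro j _
  rw [map_smul, ee_pp D hF (r := (g 0 0)⁻¹) (fun p => ?_), smul_zero]
  rw [hf.P0, ← mul_assoc, inv_mul_cancel₀ (hf.ne 0), one_mul]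

theorem Fr.eval_loc (hf : Fr v P P' ξ g) {m : Fin 3 →₀ ℕ} (hm : m.degree = 3) :
    eval (P 0) (loc ξ (monomial m 1)) = g 0 0 ^ 3 * (if m 1 = 0 ∧ m 2 = 0 then 1 else 0) := by
  have h1 : ∀ i, eval (P 0) (∑ p, C (ξ i p) * X p) = if i = 0 then g 0 0 else 0 := by
    intro i
    rw [map_sum]
    have h2 : ∀ p, eval (P 0) (C (ξ i p) * X p) = g 0 0 * (ξ i p * P' 0 p) := by
      intro p
      rw [map_mul, eval_C, eval_X, hf.P0]
      ring
    simp only [h2]
    rw [← Finset.mul_sum, hf.dual]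
    split_ifs <;> simp
  rw [loc_monomial, map_prod]
  simp only [map_pow, h1]
  rw [Fin.prod_univ_three]
  have hs : m 0 + m 1 + m 2 = 3 := by
    have h0 := hm
    rwa [Finsupp.degree_eq_sum, Fin.sum_univ_three] at h0
  by_cases h : m 1 = 0 ∧ m 2 = 0
  · rw [if_pos h, h.1, h.2]
    have : m 0 = 3 := by omega
    rw [this]
    simp
  · rw [if_neg h, mul_zero]
    by_cases h1 : m 1 = 0
    · have h2 : m 2 ≠ 0 := fun h2 => h ⟨h1, h2⟩
      rw [if_neg (show ¬ (2 : Fin 3) = 0 by decide), zero_pow h2, mul_zero]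
    · rw [if_neg (show ¬ (1 : Fin 3) = 0 by decide), zero_pow h1, mul_zero, zero_mul]

theorem Fr.v_pp (hf : Fr v P P' ξ g) (j : Fin 7) (r : Fin 5 × Fin 3) : v (pp P' j r) ≤ 1 := by
  show v (if r.2 = (bor j).2 then P' (bor j).1 r.1 else 0) ≤ 1
  split_ifs
  · exact hf.int _ _
  · rw [map_zero]
    exact zero_le

theorem Fr.v_VV (hf : Fr v P P' ξ g) (D : DSys L 4 1 (fun _ => 6)) {M : Γ}
    (hdel : ∀ m I, I.degree = 6 → ∀ f, v f ≤ 1 → v (D.del m I f) ≤ M)
    {G : MvPolynomial (Fin 5) L} (hG : G.IsHomogeneous 6) (hG1 : CB v G 1)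
    (r : Fin 5 × Fin 3) : v (VV D P' G r) ≤ M := by
  have h1 := T2.G.V_bound D (P' r.2) v M 1 hdel (fun p => hf.int _ _) 0 G (fun I hI => by
    have := hG (mem_support_iff.1 hI)
    rwa [Finsupp.degree_eq_weight_one]) hG1 r.1
  rw [one_mul] at h1
  exact h1

/-- (7): the local estimate -/
theorem Fr.loc_le (hf : Fr v P P' ξ g) (D : DSys L 4 1 (fun _ => 6))
    (hF : eval (P 0) (D.F 0) = 0) {M : Γ}
    (hdel : ∀ m I, I.degree = 6 → ∀ f, v f ≤ 1 → v (D.del m I f) ≤ M)
    {B : MvPolynomial (Fin 5) L} (hB : B.IsHomogeneous 3) (hB1 : CB v B 1)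
    (ε : Fin 7 ⊕ Fin 8 ≃ Fin 5 × Fin 3) (b : Fin 8 → (Fin 3 →₀ ℕ)) (hb : ∀ k, (b k).degree = 3) :
    v (g 0 0 ^ 3 * dt ε (Sum.elim (pp P') fun k => VV D P' (B * loc ξ (monomial (b k) 1)))) ≤
      v (eval (P 0) B) * M ^ 8 := by
  classical
  set w : Fin 7 ⊕ Fin 8 → Fin 5 × Fin 3 → L :=
    Sum.elim (pp P') fun k => VV D P' (B * loc ξ (monomial (b k) 1)) with hw
  set m0 : Fin 3 →₀ ℕ := Finsupp.single 0 6 with hm0
  set U := VV D P' (loc ξ (monomial m0 1)) with hU
  have hg0 := hf.ne 0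
  -- the size of the new determinants
  have hG0 : (loc ξ (monomial m0 (1 : L))).IsHomogeneous 6 :=
    hom_loc ξ (isHomogeneous_monomial _ (by rw [hm0, Finsupp.degree_single]))
  have hGk : ∀ k, (B * loc ξ (monomial (b k) (1 : L))).IsHomogeneous 6 := fun k =>
    hB.mul (hom_loc ξ (isHomogeneous_monomial _ (hb k)))
  have hGk1 : ∀ k, CB v (B * loc ξ (monomial (b k) (1 : L))) 1 := fun k => by
    have := hB1.mul v (CB_loc v hf.int' (b k))
    rwa [one_mul] at this
  have hdt : ∀ k : Fin 8, v (dt ε (Function.update w (Sum.inr k) U)) ≤ M ^ 8 := by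
    intro k
    refine (v_dt_le ε _ v (Sum.elim (fun _ => 1) fun _ => M) ?_).trans (le_of_eq ?_)
    · rintro (j | l) r
      · rw [Function.update_of_ne (by simp)]
        exact hf.v_pp j r
      · by_cases h : l = k
        · subst h
          rw [Function.update_self]
          exact hf.v_VV D hdel hG0 (CB_loc v hf.int' _) r
        · rw [Function.update_of_ne (by simpa using h)]
          exact hf.v_VV D hdel (hGk l) (hGk1 l) r
    · rw [Fintype.prod_sum_type]
      simp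
  -- Cramer
  have h1 := dt_cramer ε w (ee D (P 0)) U
  rw [Fintype.sum_sum_type] at h1
  have h2 : ∑ j : Fin 7, ee D (P 0) (w (Sum.inl j)) *
      dt ε (Function.update w (Sum.inl j) U) = 0 := by
    refine Finset.sum_eq_zero fun j _ => ?_
    have : ee D (P 0) (w (Sum.inl j)) = 0 :=
      ee_pp D hF (r := (g 0 0)⁻¹) (fun p => by
        rw [hf.P0, ← mul_assoc, inv_mul_cancel₀ hg0, one_mul]) j
    rw [this, zero_mul]
  rw [h2, zero_add] at h1
  have h3 : g 0 0 * ee D (P 0) U = - g 0 0 ^ 6 := by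
    rw [hf.ee_VV' D hF hG0]
    have h4 : eval (P 0) (loc ξ (monomial m0 (1 : L))) = g 0 0 ^ 6 := by
      have h5 : (monomial m0 (1 : L) : MvPolynomial (Fin 3) L) =
          monomial (Finsupp.single 0 3) 1 * monomial (Finsupp.single 0 3) 1 := by
        rw [monomial_mul, mul_one, ← Finsupp.single_add]
      rw [h5, map_mul, map_mul, hf.eval_loc (by rw [Finsupp.degree_single])]
      rw [if_pos ⟨by simp, by simp⟩]
      ring
    rw [h4]
  set ι : Fin 8 → L := fun k => if (b k) 1 = 0 ∧ (b k) 2 = 0 then 1 else 0 with hι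
  have h6 : ∀ k, g 0 0 * ee D (P 0) (w (Sum.inr k)) =
      - (eval (P 0) B * (g 0 0 ^ 3 * ι k)) := by
    intro k
    rw [show w (Sum.inr k) = VV D P' (B * loc ξ (monomial (b k) 1)) from rfl,
      hf.ee_VV' D hF (hGk k), map_mul, hf.eval_loc (hb k)]
  have h7 : g 0 0 ^ 3 * (g 0 0 ^ 3 * dt ε w) = g 0 0 ^ 3 * (eval (P 0) B *
      ∑ k, ι k * dt ε (Function.update w (Sum.inr k) U)) := by
    have h8 : g 0 0 * ee D (P 0) U * dt ε w = ∑ k, (g 0 0 * ee D (P 0) (w (Sum.inr k))) *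
        dt ε (Function.update w (Sum.inr k) U) := by
      rw [mul_assoc, h1, Finset.mul_sum]
      exact Finset.sum_congr rfl fun k _ => by ring
    rw [h3] at h8
    simp only [h6] at h8
    have h9 : ∑ k, -(eval (P 0) B * (g 0 0 ^ 3 * ι k)) *
        dt ε (Function.update w (Sum.inr k) U) = - (g 0 0 ^ 3 * (eval (P 0) B *
      ∑ k, ι k * dt ε (Function.update w (Sum.inr k) U))) := by
      rw [Finset.mul_sum, Finset.mul_sum, ← Finset.sum_neg_distrib]
      exact Finset.sum_congr rfl fun k _ => by ring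
    rw [h9] at h8
    linear_combination -h8
  have h10 := mul_left_cancel₀ (pow_ne_zero 3 hg0) h7
  rw [h10, map_mul]
  refine mul_le_mul' le_rfl (v.map_sum_le fun k _ => ?_)
  rw [map_mul]
  calc v (ι k) * v (dt ε (Function.update w (Sum.inr k) U)) ≤ 1 * M ^ 8 := by
        refine mul_le_mul' ?_ (hdt k)
        rw [hι]
        dsimp only
        split_ifs
        · rw [map_one]
        · rw [map_zero]; exact zero_le
    _ = M ^ 8 := one_mul _

end frame

end Pool.Agent.T2.H51
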