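import Pool.Agent.Lib.MP_c7af3c_ag.T2.H51.Loc

/-!
# MP_c7af3c_ag, project T2, row M3: the estimate at one place
-/

set_option autoImplicit false
set_option linter.unusedSectionVars false

namespace Pool.Agent.T2.H51

open MvPolynomial Pool.Agent.Gen Pool.Agent.T2.G Pool.Agent.Edge

variable {L : Type} [Field L] {Γ : Type} [LinearOrderedCommGroupWithZero Γ]

section alt

variable {α β R E : Type} [Fintype α] [DecidableEq α] [Fintype β] [dβ : DecidableEq β] [Fintype R]
  [DecidableEq R] [AddCommGroup E] [Module L E]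

/-- the determinant as an alternating map of the rows -/
noncomputable def dtA (ε : α ⊕ β ≃ R) : (R → L) [⋀^(α ⊕ β)]→ₗ[L] L :=
  (Matrix.detRowAlternating (R := L) (n := α ⊕ β)).compLinearMap (LinearMap.funLeft L L ε)

theorem dtA_apply (ε : α ⊕ β ≃ R) (w : α ⊕ β → R → L) : dtA ε w = dt ε w := rfl

/-- the determinant with fixed first rows, as an alternating map of the last rows -/
noncomputable def Psi (ε : α ⊕ β ≃ R) (A : α → R → L) (φ : E →ₗ[L] (R → L)) : E [⋀^β]→ₗ[L] L where
  toFun p := dt ε (Sum.elim A fun k => φ (p k))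
  map_update_add' := by
    intro inst p k x y
    obtain rfl := Subsingleton.elim inst dβ
    have h1 : ∀ z, (Sum.elim A fun k' => φ (Function.update p k z k')) =
        Function.update (Sum.elim A fun k' => φ (p k')) (Sum.inr k) (φ z) := by
      intro z
      funext i
      rcases i with i | i
      · rw [Function.update_of_ne (by simp)]
        rfl
      · by_cases h : i = k
        · subst h
          simp
        · rw [Function.update_of_ne (by simpa using h)]
          simp [Function.update_of_ne h]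
    simp only [h1, map_add]
    rw [← dtA_apply, AlternatingMap.map_update_add]
    rfl
  map_update_smul' := by
    intro inst p k c x
    obtain rfl := Subsingleton.elim inst dβ
    have h1 : ∀ z, (Sum.elim A fun k' => φ (Function.update p k z k')) =
        Function.update (Sum.elim A fun k' => φ (p k')) (Sum.inr k) (φ z) := by
      intro z
      funext i
      rcases i with i | i
      · rw [Function.update_of_ne (by simp)]
        rfl
      · by_cases h : i = k
        · subst h
          simp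
        · rw [Function.update_of_ne (by simpa using h)]
          simp [Function.update_of_ne h]
    simp only [h1, map_smul]
    rw [← dtA_apply, AlternatingMap.map_update_smul]
    rfl
  map_eq_zero_of_eq' := by
    intro p k l hkl hne
    show dtA ε _ = 0
    exact (dtA ε).map_eq_zero_of_eq _ (i := Sum.inr k) (j := Sum.inr l) (by
      show φ (p k) = φ (p l)
      rw [hkl]) (by simpa using hne)

theorem Psi_apply (ε : α ⊕ β ≃ R) (A : α → R → L) (φ : E →ₗ[L] (R → L)) (p : β → E) :
    Psi ε A φ p = dt ε (Sum.elim A fun k => φ (p k)) := rfl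

theorem Psi_smul (ε : α ⊕ β ≃ R) (A : α → R → L) (φ : E →ₗ[L] (R → L)) (p : β → E) (s : L) :
    dt ε (Sum.elim A fun k => s • φ (p k)) = s ^ Fintype.card β *
      dt ε (Sum.elim A fun k => φ (p k)) := by
  have h2 := (Psi ε A φ).toMultilinearMap.map_smul_univ (fun _ : β => s) p
  rw [Finset.prod_const, Finset.card_univ] at h2
  have h3 : (Psi ε A φ).toMultilinearMap (fun i => s • p i) =
      dt ε (Sum.elim A fun k => φ (s • p k)) := rfl
  rw [h3] at h2
  simp only [map_smul] at h2
  exact h2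

end alt

theorem m3aux {G : Type} [CommMonoid G] (h g b : G) :
    (h ^ 5 * (g ^ 4 * b)) * (1 * g) = (h * g) ^ 5 * b := by
  rw [mul_pow, one_mul, pow_succ g 4]
  ac_rfl

theorem m3aux' {G : Type} [CommGroupWithZero G] (b e m : G) (hb : b ≠ 0) :
    b ^ 8 * (b⁻¹ * e * m) = b ^ 7 * (e * m) := by
  have h1 : b ^ 8 * (b⁻¹ * e * m) = b ^ 7 * (b * b⁻¹) * (e * m) := by
    rw [pow_succ b 7]
    ac_rfl
  rw [h1, mul_inv_cancel₀ hb, mul_one]

/-- the determinants of row M3 -/
noncomputable def dl (D : DSys L 4 1 (fun _ => 6)) (P : Fin 3 → Fin 5 → L) (t : Fin 3 → Fin 5)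
    (ε : Fin 7 ⊕ Fin 8 ≃ Fin 5 × Fin 3) (B : MvPolynomial (Fin 5) L)
    (c : Fin 8 → MvPolynomial (Fin 3) L) : L :=
  dt ε (Sum.elim (pp P) fun k => VV D P (B * rename t (c k)))

/-- the hypotheses on the plane: a normalised basis, the first vector is the point, and the
variation of the point and of the plane depends only on the restriction to the plane -/
structure Pln (D : DSys L 4 1 (fun _ => 6)) (P : Fin 3 → Fin 5 → L) (t : Fin 3 → Fin 5) : Prop where
  hF : eval (P 0) (D.F 0) = 0
  h0 : P 0 (t 0) = 1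
  h1 : ∀ j, P 1 (t j) = if j = 1 then 1 else 0
  h2 : ∀ j, P 2 (t j) = if j = 2 then 1 else 0
  span : ∀ G : MvPolynomial (Fin 5) L, G.IsHomogeneous 6 → resP P G = 0 →
    VV D P G ∈ Submodule.span L (Set.range (pp P))

variable {D : DSys L 4 1 (fun _ => 6)} {P : Fin 3 → Fin 5 → L} {t : Fin 3 → Fin 5}

theorem Pln.det (h : Pln D P t) : (Matrix.of fun a b => P b (t a)).det = 1 := by
  rw [Matrix.det_fin_three]
  simp only [Matrix.of_apply, h.h0, h.h1, h.h2]
  simp

theorem Pln.li (h : Pln D P t) : LinearIndependent L P := by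
  rw [Fintype.linearIndependent_iff]
  intro c hc
  have h1 : (Matrix.of fun a b => P b (t a)).mulVec c = 0 := by
    funext a
    have h2 := congrFun hc (t a)
    rw [Finset.sum_apply] at h2
    rw [Matrix.mulVec, dotProduct]
    simp only [Matrix.of_apply, Pi.zero_apply]
    rw [← h2.trans (Pi.zero_apply _)]
    exact Finset.sum_congr rfl fun i _ => by rw [Pi.smul_apply, smul_eq_mul, mul_comm]
  have h3 := Matrix.eq_zero_of_mulVec_eq_zero (by rw [h.det]; exact one_ne_zero) h1
  exact fun i => congrFun h3 i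

/-- row M3 for a form with integral coefficients -/
theorem m3 (hp : Pln D P t) (v : Valuation L Γ) {M : Γ}
    (hdel : ∀ m I, I.degree = 6 → ∀ f, v f ≤ 1 → v (D.del m I f) ≤ M)
    {B : MvPolynomial (Fin 5) L} (hB : B.IsHomogeneous 3) (hB1 : CB v B 1)
    (ε : Fin 7 ⊕ Fin 8 ≃ Fin 5 × Fin 3) (a : Fin 8 → (Fin 3 →₀ ℕ)) (ha : ∀ k, (a k).degree = 3)
    (i : Fin 3 → Fin 5) :
    v (dl D P t ε B fun k => monomial (a k) 1) * v (Matrix.of fun r s => P s (i r)).det ≤
      v (eval (P 0) B) * M ^ 8 := by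
  classical
  obtain ⟨P', ξ, g, hf⟩ := exists_fr v P hp.li
  set h : Matrix (Fin 3) (Fin 3) L := Matrix.of fun a c => P' c (t a) with hh
  have hhg : h.det * g.det = 1 := by
    rw [← Matrix.det_mul, ← hp.det]
    congr 1
    ext a b
    rw [Matrix.mul_apply]
    simp only [hh, Matrix.of_apply]
    rw [hf.eq]
    exact Finset.sum_congr rfl fun c _ => mul_comm _ _
  have hhd : h.det ≠ 0 := left_ne_zero_of_mul_eq_one hhg
  -- the alternating form
  set φ : MvPolynomial (Fin 3) L →ₗ[L] (Fin 5 × Fin 3 → L) :=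
    (VV D P).comp ((LinearMap.mulLeft L B).comp (loc ξ).toLinearMap) with hφ
  have hφa : ∀ c, φ c = VV D P (B * loc ξ c) := fun c => rfl
  set Ψ := Psi ε (pp P) φ with hΨ
  -- values on monomials
  have hK : ∀ b : Fin 8 → (Fin 3 →₀ ℕ), (∀ k, (b k).degree = 3) →
      v (Ψ fun k => monomial (b k) 1) ≤ v g.det ^ 4 * (v (eval (P 0) B) * M ^ 8) := by
    intro b hb
    have h1 := dt_frame hf.eq hf.tri hf.ne ε (fun k => VV D P (B * loc ξ (monomial (b k) 1)))
      (fun k => VV D P' (B * loc ξ (monomial (b k) 1)))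
      (Matrix.of fun k j => dG D (B * loc ξ (monomial (b k) 1)) (g (bor j).1 (bor j).2))
      (fun k => VV_frame D hf.eq hf.tri _)
    have h2 := hf.loc_le D hp.hF hdel hB hB1 ε b hb
    have h3 : Ψ (fun k => monomial (b k) 1) = g.det ^ 4 * (g 0 0 ^ 3 *
        dt ε (Sum.elim (pp P') fun k => VV D P' (B * loc ξ (monomial (b k) 1)))) := by
      rw [hΨ, Psi_apply]
      simp only [hφa]
      rw [h1]
      ring
    rw [h3, map_mul, map_pow]
    exact mul_le_mul' le_rfl h2
  have h1 := good_all (v := v) h (fun a c => hf.int _ _) hhd Ψ _ hK a ha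
  -- comparison of the two families
  have h2 : dl D P t ε B (fun k => monomial (a k) 1) = Ψ fun k => sg h (monomial (a k) 1) := by
    have h3 : ∀ k, ∃ T : Fin 7 → L, ∑ j, T j • pp P j = VV D P (B * rename t (monomial (a k) 1) -
        B * loc ξ (sg h (monomial (a k) 1))) := by
      intro k
      refine (Submodule.mem_span_range_iff_exists_fun L).1 (hp.span _ ?_ ?_)
      · exact (hB.mul ((isHomogeneous_monomial _ (ha k)).rename_isHomogeneous)).sub
          (hB.mul (hom_loc ξ (hom_sg h _ (ha k))))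
      · rw [resP_sg hf.eq, map_sub, map_mul, map_mul, resP_rename, resP_loc hf.dual, ← hh,
          sub_self, map_zero]
    choose T hT using h3
    unfold dl
    rw [dt_blk ε (pp P) (pp P) _ (fun k => VV D P (B * loc ξ (sg h (monomial (a k) 1))))
      1 (Matrix.of T) (fun k => by simp [Matrix.one_apply]) (fun k => by
        simp only [Matrix.of_apply]
        rw [hT k, map_sub, sub_add_cancel]), Matrix.det_one, one_mul, hΨ, Psi_apply]
    simp only [hφa]
  rw [h2]
  -- the minors
  have h3 : (Matrix.of fun r s => P s (i r)) = (Matrix.of fun r c => P' c (i r)) * g := by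
    ext r s
    rw [Matrix.mul_apply]
    simp only [Matrix.of_apply]
    rw [hf.eq]
    exact Finset.sum_congr rfl fun c _ => mul_comm _ _
  have h4 : v (Matrix.of fun r c => P' c (i r)).det ≤ 1 := by
    refine (T2.G.v_det_le v _ (fun _ => 1) fun a c => hf.int _ _).trans (le_of_eq ?_)
    simp
  have h5 : v h.det * v g.det = 1 := by rw [← map_mul, hhg, map_one]
  calc v (Ψ fun k => sg h (monomial (a k) 1)) * v (Matrix.of fun r s => P s (i r)).det
      ≤ (v h.det ^ 5 * (v g.det ^ 4 * (v (eval (P 0) B) * M ^ 8))) * (1 * v g.det) := by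
        refine mul_le_mul' h1 ?_
        rw [h3, Matrix.det_mul, map_mul]
        exact mul_le_mul' h4 le_rfl
    _ = (v h.det * v g.det) ^ 5 * (v (eval (P 0) B) * M ^ 8) := m3aux _ _ _
    _ = v (eval (P 0) B) * M ^ 8 := by rw [h5, one_pow, one_mul]

theorem dl_smul (D : DSys L 4 1 (fun _ => 6)) (P : Fin 3 → Fin 5 → L) (t : Fin 3 → Fin 5)
    (ε : Fin 7 ⊕ Fin 8 ≃ Fin 5 × Fin 3) (B : MvPolynomial (Fin 5) L)
    (c : Fin 8 → MvPolynomial (Fin 3) L) (s : L) :
    dl D P t ε (C s * B) c = s ^ 8 * dl D P t ε B c := by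
  have h1 := Psi_smul ε (pp P) (VV D P) (fun k => B * rename t (c k)) s
  rw [Fintype.card_fin] at h1
  unfold dl
  rw [← h1]
  congr 1
  congr 1
  funext k
  rw [mul_assoc, C_mul', map_smul]

/-- row M3 for a form whose coefficients have size at most `|β|` -/
theorem m3' (hp : Pln D P t) (v : Valuation L Γ) {M : Γ}
    (hdel : ∀ m I, I.degree = 6 → ∀ f, v f ≤ 1 → v (D.del m I f) ≤ M)
    {B : MvPolynomial (Fin 5) L} (hB : B.IsHomogeneous 3) {β : L} (hβ : β ≠ 0)
    (hB1 : CB v B (v β))
    (ε : Fin 7 ⊕ Fin 8 ≃ Fin 5 × Fin 3) (a : Fin 8 → (Fin 3 →₀ ℕ)) (ha : ∀ k, (a k).degree = 3)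
    (i : Fin 3 → Fin 5) :
    v (dl D P t ε B fun k => monomial (a k) 1) * v (Matrix.of fun r s => P s (i r)).det ≤
      v β ^ 7 * (v (eval (P 0) B) * M ^ 8) := by
  obtain ⟨B', hB'⟩ : ∃ B' : MvPolynomial (Fin 5) L, B' = C β⁻¹ * B := ⟨_, rfl⟩
  have hB2 : B = C β * B' := by
    rw [hB', ← mul_assoc, ← C_mul, mul_inv_cancel₀ hβ, C_1, one_mul]
  have hvβ : v β ≠ 0 := (map_ne_zero v).2 hβ
  have hB3 : B'.IsHomogeneous 3 := by
    rw [hB']
    have := (isHomogeneous_C (Fin 5) β⁻¹).mul hB
    rwa [zero_add] at this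
  have hB4 : CB v B' 1 := by
    intro I
    rw [hB', coeff_C_mul, map_mul, map_inv₀]
    calc (v β)⁻¹ * v (coeff I B) ≤ (v β)⁻¹ * v β := mul_le_mul' le_rfl (hB1 I)
      _ = 1 := inv_mul_cancel₀ hvβ
  have h1 := m3 hp v hdel hB3 hB4 ε a ha i
  have h2 : dl D P t ε B (fun k => monomial (a k) 1) =
      β ^ 8 * dl D P t ε B' (fun k => monomial (a k) 1) := by
    rw [hB2]
    exact dl_smul D P t ε _ _ β
  have h3 : v (eval (P 0) B') = (v β)⁻¹ * v (eval (P 0) B) := by
    rw [hB', map_mul, eval_C, map_mul, map_inv₀ v]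
  rw [h3] at h1
  rw [h2, map_mul, map_pow, mul_assoc, ← m3aux' _ _ _ hvβ]
  exact mul_le_mul' le_rfl h1

end Pool.Agent.T2.H51
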