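import Pool.Agent.Lib.MP_c7af3c_ag.T2.H54.SizeG

/-!
# MP_c7af3c_ag, project T2, row M3: alternating forms in eight cubics and substitutions
-/

set_option autoImplicit false
set_option linter.unusedSectionVars false

namespace Pool.Agent.T2.H51

open MvPolynomial Pool.Agent.Gen Pool.Agent.T2.G

variable {L : Type} [Field L] {Γ : Type} [LinearOrderedCommGroupWithZero Γ]

/-- the substitution `X_a -> sum_b h_ab X_b` -/
noncomputable def sg (h : Matrix (Fin 3) (Fin 3) L) :
    MvPolynomial (Fin 3) L →ₐ[L] MvPolynomial (Fin 3) L :=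
  aeval fun a => ∑ b, C (h a b) * X b

theorem sg_X (h : Matrix (Fin 3) (Fin 3) L) (a : Fin 3) : sg h (X a) = ∑ b, C (h a b) * X b := by
  unfold sg
  rw [aeval_X]

theorem sg_mul (h h' : Matrix (Fin 3) (Fin 3) L) (p : MvPolynomial (Fin 3) L) :
    sg (h * h') p = sg h' (sg h p) := by
  have h1 : sg (h * h') = (sg h').comp (sg h) := by
    apply algHom_ext
    intro a
    rw [AlgHom.comp_apply, sg_X, sg_X, map_sum]
    simp only [map_mul, sg_X, Matrix.mul_apply, map_sum]
    have h2 : ∀ x, sg h' (C (h a x)) = C (h a x) := fun x => (sg h').commutes _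
    simp only [h2, Finset.sum_mul, Finset.mul_sum]
    rw [Finset.sum_comm]
    refine Finset.sum_congr rfl fun i _ => Finset.sum_congr rfl fun j _ => by ring
  rw [h1, AlgHom.comp_apply]

theorem hom_sg (h : Matrix (Fin 3) (Fin 3) L) (a : Fin 3 →₀ ℕ) {k : ℕ} (ha : a.degree = k) :
    (sg h (monomial a 1)).IsHomogeneous k := by
  have h1 : sg h (monomial a 1) = ∏ i, (∑ b, C (h i b) * X b) ^ a i := by
    unfold sg
    rw [aeval_monomial, map_one, one_mul, Finsupp.prod_fintype]
    intro i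
    rw [pow_zero]
  rw [h1, ← ha, Finsupp.degree_eq_sum]
  refine IsHomogeneous.prod _ _ _ fun i _ => ?_
  have h2 : (∑ b, C (h i b) * X b : MvPolynomial (Fin 3) L).IsHomogeneous 1 :=
    IsHomogeneous.sum _ _ _ fun b _ => by
      simpa using (isHomogeneous_C _ (h i b)).mul (isHomogeneous_X L b)
  simpa using h2.pow (a i)

theorem CB.pow1 {σ : Type} (v : Valuation L Γ) {G : MvPolynomial σ L} (hG : CB v G 1)
    (m : ℕ) : CB v (G ^ m) 1 := by
  classical
  induction m with
  | zero =>
    intro I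
    rw [pow_zero, coeff_one]
    split_ifs
    · rw [map_one]
    · rw [map_zero]
      exact zero_le
  | succ m ih =>
    rw [pow_succ]
    have := ih.mul v hG
    rwa [one_mul] at this

theorem CB.prod1 {σ ι : Type} (v : Valuation L Γ) (s : Finset ι)
    (G : ι → MvPolynomial σ L) (hG : ∀ i ∈ s, CB v (G i) 1) : CB v (∏ i ∈ s, G i) 1 := by
  classical
  induction s using Finset.induction_on with
  | empty =>
    rw [Finset.prod_empty]
    exact CB.pow1 v (CB.pow1 v (G := (1 : MvPolynomial σ L)) (by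
      intro I
      rw [coeff_one]
      split_ifs
      · rw [map_one]
      · rw [map_zero]; exact zero_le) 0) 0
  | insert a s ha ih =>
    rw [Finset.prod_insert ha]
    have := (hG a (Finset.mem_insert_self a s)).mul v
      (ih fun i hi => hG i (Finset.mem_insert_of_mem hi))
    rwa [one_mul] at this

theorem CB.sum1 {σ ι : Type} (v : Valuation L Γ) (s : Finset ι)
    (G : ι → MvPolynomial σ L) (hG : ∀ i ∈ s, CB v (G i) 1) : CB v (∑ i ∈ s, G i) 1 := by
  intro I
  rw [coeff_sum]
  exact v.map_sum_le fun i hi => hG i hi I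

theorem CB_sg (v : Valuation L Γ) (h : Matrix (Fin 3) (Fin 3) L) (hh : ∀ a b, v (h a b) ≤ 1)
    (a : Fin 3 →₀ ℕ) : CB v (sg h (monomial a 1)) 1 := by
  have h1 : sg h (monomial a 1) = ∏ i, (∑ b, C (h i b) * X b) ^ a i := by
    unfold sg
    rw [aeval_monomial, map_one, one_mul, Finsupp.prod_fintype]
    intro i
    rw [pow_zero]
  rw [h1]
  exact CB.prod1 v _ _ fun i _ => CB.pow1 v (CB.sum1 v _ _ fun b _ =>
    (CB_CX v (h i b) b).mono v (hh i b)) _

/-- an alternating form is bounded by its values on monomials -/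
theorem v_alt_le (v : Valuation L Γ) (Ψ : MvPolynomial (Fin 3) L [⋀^Fin 8]→ₗ[L] L)
    (K : Γ) (hK : ∀ b : Fin 8 → (Fin 3 →₀ ℕ), (∀ k, (b k).degree = 3) →
      v (Ψ fun k => monomial (b k) 1) ≤ K)
    (p : Fin 8 → MvPolynomial (Fin 3) L) (hp : ∀ k, (p k).IsHomogeneous 3)
    (hp1 : ∀ k, CB v (p k) 1) : v (Ψ p) ≤ K := by
  classical
  have h1 : p = fun k => ∑ b ∈ (p k).support, coeff b (p k) • monomial b (1 : L) := by
    funext k
    conv_lhs => rw [(p k).as_sum]
    refine Finset.sum_congr rfl fun b _ => ?_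
    rw [smul_monomial, smul_eq_mul, mul_one]
  rw [h1]
  have h2 := Ψ.toMultilinearMap.map_sum_finset
    (fun (k : Fin 8) (b : Fin 3 →₀ ℕ) => coeff b (p k) • monomial b (1 : L))
    (fun k => (p k).support)
  have h3 : Ψ (fun k => ∑ b ∈ (p k).support, coeff b (p k) • monomial b (1 : L)) =
      Ψ.toMultilinearMap (fun k => ∑ b ∈ (p k).support, coeff b (p k) • monomial b (1 : L)) := rfl
  rw [h3, h2]
  refine v.map_sum_le fun r hr => ?_
  rw [MultilinearMap.map_smul_univ, smul_eq_mul, map_mul, map_prod]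
  rw [Fintype.mem_piFinset] at hr
  calc (∏ i, v (coeff (r i) (p i))) * v (Ψ.toMultilinearMap fun i => monomial (r i) 1)
      ≤ 1 * K := mul_le_mul' (Finset.prod_le_one' fun i _ => hp1 i _) (hK r fun k => by
        have := hp k (mem_support_iff.1 (hr k))
        rwa [Finsupp.degree_eq_weight_one])
    _ = K := one_mul _

/-- the property which is proved by decomposition -/
def Good (v : Valuation L Γ) (h : Matrix (Fin 3) (Fin 3) L) : Prop :=
  ∀ (Ψ : MvPolynomial (Fin 3) L [⋀^Fin 8]→ₗ[L] L) (K : Γ),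
    (∀ b : Fin 8 → (Fin 3 →₀ ℕ), (∀ k, (b k).degree = 3) →
      v (Ψ fun k => monomial (b k) 1) ≤ K) →
    ∀ a : Fin 8 → (Fin 3 →₀ ℕ), (∀ k, (a k).degree = 3) →
      v (Ψ fun k => sg h (monomial (a k) 1)) ≤ v h.det ^ 5 * K

theorem Good.mul {v : Valuation L Γ} {h h' : Matrix (Fin 3) (Fin 3) L} (hh : Good v h)
    (hh' : Good v h') : Good v (h * h') := by
  intro Ψ K hK a ha
  have h1 : (fun k => sg (h * h') (monomial (a k) (1 : L))) =
      fun k => sg h' (sg h (monomial (a k) 1)) := by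
    funext k
    exact sg_mul h h' _
  rw [h1]
  have h2 := hh (Ψ.compLinearMap (sg h').toLinearMap) (v h'.det ^ 5 * K)
    (fun b hb => hh' Ψ K hK b hb) a ha
  rw [Matrix.det_mul, map_mul, mul_pow, mul_assoc]
  exact h2

theorem good_int {v : Valuation L Γ} {h : Matrix (Fin 3) (Fin 3) L}
    (hh : ∀ a b, v (h a b) ≤ 1) (hd : v h.det = 1) : Good v h := by
  intro Ψ K hK a ha
  rw [hd, one_pow, one_mul]
  exact v_alt_le v Ψ K hK _ (fun k => hom_sg h _ (ha k)) fun k => CB_sg v h hh _

end Pool.Agent.T2.H51
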